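import Pool.Agent.H98.RFC.Targets

/-!
# Row GEO of the board rfc_modules: the geometry of the chains
-/

set_option autoImplicit false

namespace Pool.Agent.H49.RFC

open Pool.Agent.H98.RFC

theorem mem_box (L : ℕ) (z : Site) :
    z ∈ box L ↔ (-(L : ℤ) ≤ z.1 ∧ z.1 ≤ L) ∧ (-(L : ℤ) ≤ z.2 ∧ z.2 ≤ L) := by
  unfold box
  rw [Finset.mem_product, Finset.mem_Icc, Finset.mem_Icc]

theorem mem_bx (y z : Site) (r : ℕ) :
    z ∈ bx y r ↔ (y.1 - r ≤ z.1 ∧ z.1 ≤ y.1 + r) ∧ (y.2 - r ≤ z.2 ∧ z.2 ≤ y.2 + r) := by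
  unfold bx
  rw [Finset.mem_product, Finset.mem_Icc, Finset.mem_Icc]

theorem sum_abs_le {n : ℕ} (b : Fin n → ℤ) (K : ℤ) (hb : ∀ i, |b i| ≤ K) :
    |∑ i, b i| ≤ n * K := by
  calc |∑ i, b i| ≤ ∑ i, |b i| := Finset.abs_sum_le_sum_abs _ _
    _ ≤ ∑ _i : Fin n, K := Finset.sum_le_sum fun i _ => hb i
    _ = n * K := by
      rw [Finset.sum_const, Finset.card_univ, Fintype.card_fin, nsmul_eq_mul]

theorem pt_bound {n : ℕ} (a : Fin n → Site) (K : ℕ) (ha : ∀ i, a i ∈ box K) (j : Fin (n + 1)) :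
    |(pt a j).1| ≤ n * K ∧ |(pt a j).2| ≤ n * K := by
  unfold pt
  constructor
  · rw [Prod.fst_sum]
    refine sum_abs_le _ _ fun i => ?_
    split_ifs
    · have h := ((mem_box K (a i)).1 (ha i)).1
      rw [abs_le]
      exact h
    · show |(0 : ℤ)| ≤ K
      rw [abs_zero]
      exact Int.natCast_nonneg K
  · rw [Prod.snd_sum]
    refine sum_abs_le _ _ fun i => ?_
    split_ifs
    · have h := ((mem_box K (a i)).1 (ha i)).2
      rw [abs_le]
      exact h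
    · show |(0 : ℤ)| ≤ K
      rw [abs_zero]
      exact Int.natCast_nonneg K

theorem card_box (L : ℕ) : (box L).card = (2 * L + 1) * (2 * L + 1) := by
  unfold box
  have h : (Finset.Icc (-(L : ℤ)) L).card = 2 * L + 1 := by
    rw [Int.card_Icc]
    omega
  rw [Finset.card_product, h]

theorem pf_GEO : T_GEO := by
  intro R r n L hL a ha
  rw [Fintype.mem_piFinset] at ha
  have hbox : ∀ i, a i ∈ box (2 * r + 2 * R) := by
    intro i
    have h := ha i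
    unfold ann at h
    rw [Finset.mem_sdiff] at h
    exact h.1
  refine ⟨?_, ?_, ?_⟩
  · intro j z hz
    have hb := pt_bound a (2 * r + 2 * R) hbox j
    rw [mem_bx] at hz
    rw [mem_box]
    have hL' : ((n : ℤ) * ((2 * r + 2 * R : ℕ) : ℤ)) + r ≤ L := by exact_mod_cast hL
    rw [abs_le, abs_le] at hb
    obtain ⟨⟨h1, h2⟩, h3, h4⟩ := hb
    obtain ⟨⟨h5, h6⟩, h7, h8⟩ := hz
    refine ⟨⟨?_, ?_⟩, ?_, ?_⟩ <;> linarith
  · intro hS i j hij
    rw [Finset.disjoint_left]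
    intro z hz1 hz2
    unfold hull at hz1
    rw [Finset.mem_biUnion] at hz1
    obtain ⟨w, hw, hzw⟩ := hz1
    rw [mem_bx] at hw hzw hz2
    refine hS i j hij ?_
    rw [mem_box]
    have e1 : (pt a i - pt a j).1 = (pt a i).1 - (pt a j).1 := rfl
    have e2 : (pt a i - pt a j).2 = (pt a i).2 - (pt a j).2 := rfl
    rw [e1, e2]
    push_cast
    obtain ⟨⟨h1, h2⟩, h3, h4⟩ := hw
    obtain ⟨⟨h5, h6⟩, h7, h8⟩ := hzw
    obtain ⟨⟨g1, g2⟩, g3, g4⟩ := hz2
    refine ⟨⟨?_, ?_⟩, ?_, ?_⟩ <;> linarith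
  · have hsub : box (2 * r + R) ⊆ box (2 * r + 2 * R) := by
      intro z hz
      rw [mem_box] at hz ⊢
      push_cast at hz ⊢
      have hR : (0 : ℤ) ≤ R := Int.natCast_nonneg R
      obtain ⟨⟨h1, h2⟩, h3, h4⟩ := hz
      refine ⟨⟨?_, ?_⟩, ?_, ?_⟩ <;> linarith
    unfold ann
    rw [Finset.card_sdiff_of_subset hsub, card_box, card_box]
    have h1 : (2 * (2 * r + 2 * R) + 1) * (2 * (2 * r + 2 * R) + 1) =
        4 * R * (4 * r + 3 * R + 1) + (2 * (2 * r + R) + 1) * (2 * (2 * r + R) + 1) := by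
      ring
    rw [h1, Nat.add_sub_cancel]

end Pool.Agent.H49.RFC
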