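import Pool.Agent.H98.RFC.Targets

/-!
# Row IN1 of the board rfc_modules: the finite volume inequality for `T > 0`
-/

set_option autoImplicit false

open MeasureTheory ProbabilityTheory

namespace Pool.Agent.H49.RFC

open Pool.Agent.H98.RFC

theorem gam_prob : IsProbabilityMeasure gam := by
  unfold gam
  infer_instance

theorem infl_pos {R : ℕ} {J h : Site → ℝ} {T : ℝ} (hT : 0 < T) (Λ : Finset Site) (x : Site) :
    infl R J h T Λ x = inf1 R J h T Λ x := by
  unfold infl
  rw [if_neg hT.ne']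

theorem self_mem_bx (y : Site) (r : ℕ) : y ∈ bx y r := by
  unfold bx
  rw [Finset.mem_product, Finset.mem_Icc, Finset.mem_Icc]
  have h : (0 : ℤ) ≤ r := Int.natCast_nonneg r
  refine ⟨⟨?_, ?_⟩, ?_, ?_⟩ <;> linarith

theorem zero_mem_box (L : ℕ) : (0 : Site) ∈ box L := by
  unfold box
  rw [Finset.mem_product, Finset.mem_Icc, Finset.mem_Icc]
  have h : (0 : ℤ) ≤ L := Int.natCast_nonneg L
  refine ⟨⟨?_, ?_⟩, ?_, ?_⟩
  · show -(L : ℤ) ≤ 0
    linarith
  · exact h
  · show -(L : ℤ) ≤ 0
    linarith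
  · exact h

theorem pf_IN1 (hQUE : T_QUE) (hPRO : T_PRO) (hGEO : T_GEO) (hMEA : T_MEA) (hNN : T_NN) :
    T_IN1 := by
  classical
  intro R J hJ T ε hT r n L hL
  haveI := gam_prob
  have hcard : (ann R r).card = 4 * R * (4 * r + 3 * R + 1) :=
    (hGEO R r 0 r (by omega) (fun i => i.elim0)
      (by rw [Fintype.mem_piFinset]; exact fun i => i.elim0)).2.2
  -- bounds
  have hmeas : ∀ (Λ : Finset Site), ∀ x ∈ Λ,
      Measurable (fun η : Site → ℝ => inf1 R J (fun x => ε * η x) T Λ x) := by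
    intro Λ x hx
    have h := (hMEA R J hJ T ε hT.le Λ x hx).1
    simpa only [infl_pos hT] using h
  have h01 : ∀ (Λ : Finset Site), ∀ x ∈ Λ, ∀ η : Site → ℝ,
      0 ≤ inf1 R J (fun x => ε * η x) T Λ x ∧ inf1 R J (fun x => ε * η x) T Λ x ≤ 1 :=
    fun Λ x hx η => hNN R J hJ (fun x => ε * η x) T hT Λ x hx
  have hmag : ∀ l : ℕ, mag R J T ε l =
      ∫ η, inf1 R J (fun x => ε * η x) T (box l) 0 ∂gam := by
    intro l
    unfold mag
    simp only [infl_pos hT]
  have hmag0 : 0 ≤ mag R J T ε r := by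
    rw [hmag]
    exact integral_nonneg fun η => (h01 (box r) 0 (zero_mem_box r) η).1
  have hintL : Integrable (fun η : Site → ℝ => inf1 R J (fun x => ε * η x) T (box L) 0) gam := by
    refine Integrable.of_bound (hmeas _ _ (zero_mem_box L)).aestronglyMeasurable 1 ?_
    filter_upwards with η
    have h := h01 (box L) 0 (zero_mem_box L) η
    rw [Real.norm_eq_abs, abs_le]
    exact ⟨by linarith, h.2⟩
  obtain ⟨P, hP⟩ : ∃ P : Finset (Fin n → Site), P =
      (Fintype.piFinset (fun _ : Fin n => ann R r)).filter (fun a => Sep R r a) := ⟨_, rfl⟩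
  have hintP : ∀ a ∈ P, Integrable (fun η : Site → ℝ =>
      ∏ j, inf1 R J (fun x => ε * η x) T (bx (pt a j) r) (pt a j)) gam := by
    intro a _
    refine Integrable.of_bound (Finset.measurable_fun_prod _ fun j _ =>
      hmeas _ _ (self_mem_bx _ _)).aestronglyMeasurable 1 ?_
    filter_upwards with η
    rw [norm_prod]
    refine Finset.prod_le_one (fun j _ => norm_nonneg _) fun j _ => ?_
    have h := h01 (bx (pt a j) r) (pt a j) (self_mem_bx _ _) η
    rw [Real.norm_eq_abs, abs_le]
    exact ⟨by linarith, h.2⟩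
  have h1 : mag R J T ε L ≤ ∑ a ∈ P, mag R J T ε r ^ (n + 1) := by
    rw [hmag L]
    calc ∫ η, inf1 R J (fun x => ε * η x) T (box L) 0 ∂gam
        ≤ ∫ η, ∑ a ∈ P, ∏ j, inf1 R J (fun x => ε * η x) T (bx (pt a j) r) (pt a j) ∂gam := by
          refine integral_mono hintL (integrable_finsetSum P hintP) fun η => ?_
          have h := hQUE R J hJ (fun x => ε * η x) T hT r n L hL
          rw [hP]
          refine le_trans h (le_of_eq ?_)
          congr
      _ = ∑ a ∈ P, ∫ η, ∏ j, inf1 R J (fun x => ε * η x) T (bx (pt a j) r) (pt a j) ∂gam :=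
          integral_finsetSum P hintP
      _ = ∑ a ∈ P, mag R J T ε r ^ (n + 1) := by
          refine Finset.sum_congr rfl fun a ha => ?_
          rw [hP, Finset.mem_filter] at ha
          exact hPRO R J hJ T ε hT r n a ha.2
  have h2 : (P.card : ℝ) ≤ (4 * R * (4 * r + 3 * R + 1) : ℝ) ^ n := by
    have h3 : P.card ≤ (ann R r).card ^ n := by
      rw [hP]
      refine le_trans (Finset.card_filter_le _ _) (le_of_eq ?_)
      rw [Fintype.card_piFinset, Finset.prod_const, Finset.card_univ, Fintype.card_fin]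
    rw [hcard] at h3
    exact_mod_cast h3
  refine le_trans h1 ?_
  rw [Finset.sum_const, nsmul_eq_mul]
  exact mul_le_mul_of_nonneg_right h2 (pow_nonneg hmag0 _)

end Pool.Agent.H49.RFC
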