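import Pool.Agent.H98.RFC.Targets

/-!
# Row LM of the board rfc_modules: the limit `T → 0`
-/

set_option autoImplicit false

open Filter Topology

namespace Pool.Agent.H49.RFC

open Pool.Agent.H98.RFC

open Classical in
theorem soft_lim {ι : Type*} (P : Finset ι) (hP : P.Nonempty) (E s : ι → ℝ) :
    Tendsto (fun T : ℝ => (∑ S ∈ P, Real.exp (-(E S) / T) * s S) /
      ∑ S ∈ P, Real.exp (-(E S) / T)) (𝓝[>] 0)
      (𝓝 ((∑ S ∈ P.filter (fun S => ∀ S' ∈ P, E S ≤ E S'), s S) /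
        ((P.filter (fun S => ∀ S' ∈ P, E S ≤ E S')).card : ℝ))) := by
  obtain ⟨S0, hS0, hmin⟩ := Finset.exists_min_image P E hP
  have hpt : ∀ S ∈ P, Tendsto (fun T : ℝ => Real.exp (-(E S - E S0) / T)) (𝓝[>] 0)
      (𝓝 (if (∀ S' ∈ P, E S ≤ E S') then (1 : ℝ) else 0)) := by
    intro S hS
    split_ifs with h
    · have h1 : E S = E S0 := le_antisymm (h S0 hS0) (hmin S hS)
      have h2 : (fun T : ℝ => Real.exp (-(E S - E S0) / T)) = fun _ => (1 : ℝ) := by
        funext T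
        rw [h1]
        simp
      rw [h2]
      exact tendsto_const_nhds
    · have h1 : 0 < E S - E S0 := by
        rcases (hmin S hS).lt_or_eq with h2 | h2
        · linarith
        · exact absurd (fun S' hS' => h2 ▸ hmin S' hS') h
      have h2 : Tendsto (fun T : ℝ => (E S - E S0) * T⁻¹) (𝓝[>] 0) atTop :=
        Tendsto.const_mul_atTop h1 tendsto_inv_nhdsGT_zero
      have h3 : Tendsto (fun T : ℝ => -((E S - E S0) * T⁻¹)) (𝓝[>] 0) atBot :=
        tendsto_neg_atTop_atBot.comp h2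
      have h4 := Real.tendsto_exp_atBot.comp h3
      refine h4.congr fun T => ?_
      show Real.exp (-((E S - E S0) * T⁻¹)) = Real.exp (-(E S - E S0) / T)
      congr 1
      rw [neg_div, div_eq_mul_inv]
  have hnum : Tendsto (fun T : ℝ => ∑ S ∈ P, Real.exp (-(E S - E S0) / T) * s S) (𝓝[>] 0)
      (𝓝 (∑ S ∈ P, (if (∀ S' ∈ P, E S ≤ E S') then (1 : ℝ) else 0) * s S)) :=
    tendsto_finsetSum P fun S hS => (hpt S hS).mul_const _
  have hden : Tendsto (fun T : ℝ => ∑ S ∈ P, Real.exp (-(E S - E S0) / T)) (𝓝[>] 0)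
      (𝓝 (∑ S ∈ P, (if (∀ S' ∈ P, E S ≤ E S') then (1 : ℝ) else 0))) :=
    tendsto_finsetSum P fun S hS => hpt S hS
  have e1 : ∑ S ∈ P, (if (∀ S' ∈ P, E S ≤ E S') then (1 : ℝ) else 0) * s S =
      ∑ S ∈ P.filter (fun S => ∀ S' ∈ P, E S ≤ E S'), s S := by
    rw [Finset.sum_filter]
    refine Finset.sum_congr rfl fun S _ => ?_
    split_ifs
    · rw [one_mul]
    · rw [zero_mul]
  have e2 : ∑ S ∈ P, (if (∀ S' ∈ P, E S ≤ E S') then (1 : ℝ) else 0) =
      ((P.filter (fun S => ∀ S' ∈ P, E S ≤ E S')).card : ℝ) := by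
    rw [← Finset.sum_filter, Finset.sum_const, nsmul_eq_mul, mul_one]
  rw [e1] at hnum
  rw [e2] at hden
  have hne : ((P.filter (fun S => ∀ S' ∈ P, E S ≤ E S')).card : ℝ) ≠ 0 := by
    have : 0 < (P.filter (fun S => ∀ S' ∈ P, E S ≤ E S')).card :=
      Finset.card_pos.2 ⟨S0, Finset.mem_filter.2 ⟨hS0, hmin⟩⟩
    exact_mod_cast this.ne'
  refine (hnum.div hden hne).congr fun T => ?_
  have e3 : ∀ S, Real.exp (-(E S - E S0) / T) = Real.exp (E S0 / T) * Real.exp (-(E S) / T) := by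
    intro S
    rw [← Real.exp_add]
    congr 1
    ring
  show (∑ S ∈ P, Real.exp (-(E S - E S0) / T) * s S) /
      (∑ S ∈ P, Real.exp (-(E S - E S0) / T)) = _
  simp only [e3, mul_assoc]
  rw [← Finset.mul_sum, ← Finset.mul_sum, mul_div_mul_left _ _ (Real.exp_pos _).ne']

theorem mg_lim (R : ℕ) (J h : Site → ℝ) (Λ : Finset Site) (B : Set Site) (x : Site) :
    Tendsto (fun T : ℝ => mg R J h T Λ B x) (𝓝[>] 0) (𝓝 (mg0 R J h Λ B x)) := by
  classical
  have h1 := soft_lim Λ.powerset ⟨∅, Finset.empty_mem_powerset _⟩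
    (fun S => en R J h Λ (↑S ∪ B)) (fun S => sg (↑S ∪ B) x)
  unfold mg mg0 gs Zf wt
  refine h1.congr' ?_ |>.trans ?_
  · exact Filter.EventuallyEq.rfl
  · exact le_of_eq (by congr)

theorem pf_LM : T_LM := by
  intro R J h Λ x
  have h1 : infl R J h 0 Λ x = inf0 R J h Λ x := by
    unfold infl
    rw [if_pos rfl]
  rw [h1]
  have h2 : Tendsto (fun T : ℝ => inf1 R J h T Λ x) (𝓝[>] 0) (𝓝 (inf0 R J h Λ x)) := by
    unfold inf1 inf0
    exact ((mg_lim R J h Λ _ x).sub (mg_lim R J h Λ _ x)).div_const 2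
  refine h2.congr' ?_
  filter_upwards [self_mem_nhdsWithin] with T hT
  unfold infl
  rw [if_neg (ne_of_gt hT)]

end Pool.Agent.H49.RFC
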